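import Pool.Agent.Q280.CT.Lower

set_option autoImplicit false

open MeasureTheory ProbabilityTheory Set Filter Topology
open Pool.Agent.Q280.CT

namespace Pool.Agent.Results.MP_4978a0_pr.SharpQuantileBounds

/-- `sup_{a ≤ c < y_p} (y_p - c) / (∫ (y - c)_+² dW)^{1/2}`, where `y_p = W⁻¹(p)`. -/
noncomputable def supPlus (ν : Measure ℝ) (a p : ℝ) : ℝ :=
  sSup ((fun c => (quantile ν p - c) / Real.sqrt (∫ y, (max (y - c) 0) ^ 2 ∂ν)) ''
    Ico a (quantile ν p))

/-- `(y_p - a) / (∫ min(y - a, y_p - a)² dW)^{1/2}`. -/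
noncomputable def supMinus (ν : Measure ℝ) (a p : ℝ) : ℝ :=
  (quantile ν p - a) / Real.sqrt (∫ y, (min (y - a) (quantile ν p - a)) ^ 2 ∂ν)

open Classical in
/-- `min(1, (y_p - a) / (∫ (y - a)² dW)^{1/2})`, read as `0` if `∫ y² dW = ∞`. -/
noncomputable def infMinus (ν : Measure ℝ) (a p : ℝ) : ℝ :=
  if Integrable (fun y => y ^ 2) ν then
    min 1 ((quantile ν p - a) / Real.sqrt (∫ y, (y - a) ^ 2 ∂ν)) else 0

lemma ratio_nonneg {μ : Measure ℝ} (h : Adm μ) {p : ℝ} (h0 : 0 < p) (h1 : p < 1) :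
    0 ≤ ratio μ p := div_nonneg (q_spec h h0 h1).2 (Real.sqrt_nonneg _)

lemma ratio_markov {μ : Measure ℝ} (h : Adm μ) {p : ℝ} (h0 : 0 < p) (h1 : p < 1) :
    ratio μ p ≤ 1 / Real.sqrt (1 - p) := by
  have hm := markov h h0 h1
  have hq := (q_spec h h0 h1).2
  have hp : 0 < 1 - p := by linarith
  unfold ratio
  rw [div_le_div_iff₀ (Real.sqrt_pos.mpr h.pos) (Real.sqrt_pos.mpr hp), one_mul,
    ← Real.sqrt_sq hq, ← Real.sqrt_mul (sq_nonneg _)]
  exact Real.sqrt_le_sqrt hm

/-- existence of a positive quantile -/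
lemma exists_pos_quantile {μ : Measure ℝ} (h : Adm μ) :
    ∃ p, 0 < p ∧ p < 1 ∧ 0 < quantile μ p := by
  have := h.prob
  by_contra hcon
  push Not at hcon
  have h1 : ∀ p, 0 < p → p < 1 → p ≤ cdf μ 0 := by
    intro p h0 h1
    exact ((q_spec h h0 h1).1 0).mpr (hcon p h0 h1)
  have h2 : 1 ≤ cdf μ 0 := by
    by_contra hc
    push Not at hc
    obtain ⟨t, ht1, ht2⟩ := exists_between hc
    have := h1 t ((cdf_nonneg μ 0).trans_lt ht1) ht2
    linarith
  have h3 : μ (Ioi 0) = 0 := by
    rw [Ioi_eq]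
    simp only [ENNReal.ofReal_eq_zero]
    linarith
  have h4 : ∀ᵐ x ∂μ, x = 0 := by
    have h5 : ∀ᵐ x ∂μ, x ≤ 0 := by
      rw [ae_iff]
      convert h3 using 2
      ext x; simp
    filter_upwards [h5, ae_nonneg h] with x hx hx0
    exact le_antisymm hx hx0
  have h6 : mom2 μ = 0 := by
    unfold mom2
    rw [integral_congr_ae (g := fun _ => (0:ℝ)) (by filter_upwards [h4] with x hx; rw [hx]; norm_num)]
    simp
  have := h.pos
  linarith

lemma lub_plus {ν : Measure ℝ} {a : ℝ} (h : Base ν a) (hi : Integrable (fun y => y ^ 2) ν) {p : ℝ}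
    (h0 : 0 < p) (h1 : p < 1) :
    IsLUB {r | ∃ μ, Plus ν a μ ∧ r = ratio μ p} (supPlus ν a p) := by
  obtain ⟨hy, hay, hyp⟩ := yp_spec h h0 h1
  have hp : 0 < 1 - p := by linarith
  have hbdd : BddAbove ((fun c => (quantile ν p - c) / Real.sqrt (∫ y, (max (y - c) 0) ^ 2 ∂ν)) ''
      Ico a (quantile ν p)) := by
    refine ⟨1 / Real.sqrt (1 - p), ?_⟩
    rintro _ ⟨c, hc, rfl⟩
    have hA := A_pos h (int_A h hi c) h0 h1 hc.2
    have hAl := A_lower h (int_A h hi c) h0 h1 hc.2
    have hyc : 0 ≤ quantile ν p - c := by linarith [hc.2]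
    show (quantile ν p - c) / Real.sqrt (A ν c) ≤ _
    rw [div_le_div_iff₀ (Real.sqrt_pos.mpr hA) (Real.sqrt_pos.mpr hp), one_mul,
      ← Real.sqrt_sq hyc, ← Real.sqrt_mul (sq_nonneg _)]
    apply Real.sqrt_le_sqrt
    exact hAl
  constructor
  · rintro r ⟨μ, hμ, rfl⟩
    rcases eq_or_lt_of_le (q_spec hμ.toAdm h0 h1).2 with hq | hq
    · have hr : ratio μ p = 0 := by unfold ratio; rw [← hq, zero_div]
      rw [hr]
      apply le_trans _ (le_csSup hbdd ⟨a, ⟨le_rfl, hay⟩, rfl⟩)
      apply div_nonneg (by linarith) (Real.sqrt_nonneg _)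
    · obtain ⟨g, c, hg, hac, hcy, hgq, hF⟩ := plus_line h hμ h0 h1 hq
      obtain ⟨_, hm⟩ := plus_mom h hμ hg hF
      have hA := A_pos h (int_A h hi c) h0 h1 hcy
      have h2 : ratio μ p ≤ (quantile ν p - c) / Real.sqrt (A ν c) := by
        unfold ratio
        exact sqrt_div_le hg hgq hq.le hA hm
      exact h2.trans (le_csSup hbdd ⟨c, ⟨hac, hcy⟩, rfl⟩)
  · intro b hb
    have hne : (Ico a (quantile ν p)).Nonempty := ⟨a, le_rfl, hay⟩
    apply csSup_le (hne.image _)
    rintro _ ⟨c, hc, rfl⟩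
    apply hb
    have hc1 : cdf ν c < 1 := by
      have := monotone_cdf ν hc.2.le
      rw [hy] at this
      linarith
    refine ⟨phi ν c, plus_phi h hi hc.1 hc1, ?_⟩
    unfold ratio
    rw [quantile_phi h h0 h1, max_eq_left (by linarith [hc.2]), mom2_phi]
    rfl

lemma glb_plus {ν : Measure ℝ} {a : ℝ} (h : Base ν a) (hi : Integrable (fun y => y ^ 2) ν) {p : ℝ}
    (h0 : 0 < p) (h1 : p < 1) :
    IsGLB {r | ∃ μ, Plus ν a μ ∧ r = ratio μ p} 0 := by
  obtain ⟨hy, hay, hyp⟩ := yp_spec h h0 h1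
  constructor
  · rintro r ⟨μ, hμ, rfl⟩
    exact ratio_nonneg hμ.toAdm h0 h1
  · intro b hb
    apply hb
    refine ⟨phi ν (quantile ν p), plus_phi h hi hay.le (by rw [hy]; exact h1), ?_⟩
    unfold ratio
    rw [quantile_phi h h0 h1]
    simp

lemma empty_plus {ν : Measure ℝ} {a : ℝ} (h : Base ν a) (hi : ¬ Integrable (fun y => y ^ 2) ν)
    (μ : Measure ℝ) : ¬ Plus ν a μ := by
  intro hμ
  have := h.prob
  obtain ⟨p, h0, h1, hq⟩ := exists_pos_quantile hμ.toAdm
  obtain ⟨g, c, hg, hac, hcy, hgq, hF⟩ := plus_line h hμ h0 h1 hq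
  obtain ⟨h2, _⟩ := plus_mom h hμ hg hF
  apply hi
  have h3 : Integrable (fun y => 2 * (max (y - c) 0) ^ 2 + (2 * a ^ 2 + 2 * c ^ 2)) ν :=
    (h2.const_mul 2).add (integrable_const _)
  refine h3.mono' (by fun_prop) ?_
  filter_upwards [base_ae h] with y hy
  rw [Real.norm_eq_abs, abs_of_nonneg (sq_nonneg _)]
  rcases le_total (y - c) 0 with h4 | h4
  · rw [max_eq_right h4]
    have h5 : y ^ 2 ≤ a ^ 2 + c ^ 2 := by
      rcases le_total 0 y with h6 | h6
      · nlinarith [sq_nonneg a]
      · nlinarith [sq_nonneg c]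
    nlinarith [sq_nonneg a, sq_nonneg c]
  · rw [max_eq_left h4]
    nlinarith [sq_nonneg (y - 2 * c), sq_nonneg a]

lemma lub_minus {ν : Measure ℝ} {a : ℝ} (h : Base ν a) {p : ℝ} (h0 : 0 < p) (h1 : p < 1) :
    IsLUB {r | ∃ μ, Minus ν a μ ∧ r = ratio μ p} (supMinus ν a p) := by
  have := h.prob
  obtain ⟨hy, hay, hyp⟩ := yp_spec h h0 h1
  have hya : 0 < quantile ν p - a := by linarith
  have hadm := (minus_psi h (δ := 1) (K := quantile ν p - a) one_pos hya).toAdm
  have hpsi : mom2 (psi ν a 1 (quantile ν p - a)) = B ν a (quantile ν p - a) := by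
    rw [mom2_psi]
    unfold B
    apply integral_congr_ae
    filter_upwards [base_ae h] with y hy
    rw [max_eq_left (by linarith), div_one]
  have hBpos : 0 < B ν a (quantile ν p - a) := by rw [← hpsi]; exact hadm.pos
  constructor
  · rintro r ⟨μ, hμ, rfl⟩
    have hm := minus_mom h hμ h0 h1
    obtain ⟨hq, _⟩ := minus_line h hμ h0 h1
    unfold ratio supMinus
    exact sqrt_div_le (g := (quantile ν p - a) / quantile μ p) (by positivity)
      (by field_simp) hq.le hBpos hm
  · intro b hb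
    apply hb
    refine ⟨psi ν a 1 (quantile ν p - a), minus_psi h one_pos hya, ?_⟩
    unfold ratio
    rw [quantile_psi h one_pos hya h0 h1, hpsi, max_eq_left hya.le, div_one, min_self]
    rfl

lemma psi_one {ν : Measure ℝ} {a : ℝ} (h : Base ν a) {c δ p : ℝ} (_hc : a ≤ c) (hδ : 0 < δ)
    (h0 : 0 < p) (h1 : p < 1) (hcy : c + δ ≤ quantile ν p) :
    quantile (psi ν c δ 1) p = 1 ∧ mom2 (psi ν c δ 1) ≤ 1 - cdf ν c ∧
      1 - cdf ν (c + δ) ≤ mom2 (psi ν c δ 1) := by
  have := h.prob
  have hq : quantile (psi ν c δ 1) p = 1 := by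
    rw [quantile_psi h hδ one_pos h0 h1, max_eq_left (by linarith), min_eq_right]
    rw [le_div_iff₀ hδ]; linarith
  have hint := int_psi h (c := c) hδ one_pos
  refine ⟨hq, ?_, ?_⟩
  · rw [mom2_psi]
    have h2 : ∫ y, (min (max (y - c) 0 / δ) 1) ^ 2 ∂ν ≤ ∫ y, (Ioi c).indicator (fun _ => (1:ℝ)) y ∂ν := by
      apply integral_mono hint ((integrable_const _).indicator measurableSet_Ioi)
      intro y
      simp only
      by_cases hyc : y ∈ Ioi c
      · rw [indicator_of_mem hyc]
        have := (bdd_psi (c := c) hδ one_pos y).2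
        linarith
      · rw [indicator_of_notMem hyc]
        rw [mem_Ioi, not_lt] at hyc
        rw [max_eq_right (by linarith)]
        simp
    rw [integral_indicator measurableSet_Ioi, setIntegral_const, smul_eq_mul, measureReal_def,
      Ioi_eq, ENNReal.toReal_ofReal (by linarith [cdf_le_one ν c]), mul_one] at h2
    exact h2
  · rw [mom2_psi]
    have h2 : ∫ y, (Ioi (c + δ)).indicator (fun _ => (1:ℝ)) y ∂ν ≤
        ∫ y, (min (max (y - c) 0 / δ) 1) ^ 2 ∂ν := by
      apply integral_mono ((integrable_const _).indicator measurableSet_Ioi) hint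
      intro y
      simp only
      by_cases hyc : y ∈ Ioi (c + δ)
      · rw [indicator_of_mem hyc]
        rw [mem_Ioi] at hyc
        rw [max_eq_left (by linarith), min_eq_right]
        · norm_num
        · rw [le_div_iff₀ hδ]; linarith
      · rw [indicator_of_notMem hyc]
        positivity
    rw [integral_indicator measurableSet_Ioi, setIntegral_const, smul_eq_mul, measureReal_def,
      Ioi_eq, ENNReal.toReal_ofReal (by linarith [cdf_le_one ν (c + δ)]), mul_one] at h2
    exact h2

lemma glb_minus {ν : Measure ℝ} {a : ℝ} (h : Base ν a) {p : ℝ} (h0 : 0 < p) (h1 : p < 1) :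
    IsGLB {r | ∃ μ, Minus ν a μ ∧ r = ratio μ p} (infMinus ν a p) := by
  have := h.prob
  obtain ⟨hy, hay, hyp⟩ := yp_spec h h0 h1
  have hya : 0 < quantile ν p - a := by linarith
  unfold infMinus
  split_ifs with hi
  · constructor
    · rintro r ⟨μ, hμ, rfl⟩
      have hm := minus_mom_upper h hμ h0 h1 hi
      obtain ⟨hq, _⟩ := minus_line h hμ h0 h1
      have hmp := hμ.pos
      rcases le_max_iff.mp hm with h2 | h2
      · refine (min_le_left _ _).trans ?_
        unfold ratio
        rw [le_div_iff₀ (Real.sqrt_pos.mpr hmp), one_mul, Real.sqrt_le_left hq.le]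
        exact h2
      · refine (min_le_right _ _).trans ?_
        unfold ratio
        set C := ∫ z, (z - a) ^ 2 ∂ν with hC
        have hCpos : 0 < C := by
          by_contra hcon
          push Not at hcon
          have : (quantile μ p / (quantile ν p - a)) ^ 2 * C ≤ 0 :=
            mul_nonpos_of_nonneg_of_nonpos (sq_nonneg _) hcon
          linarith
        have h3 : Real.sqrt (mom2 μ) ≤ quantile μ p / (quantile ν p - a) * Real.sqrt C := by
          rw [Real.sqrt_le_left (by positivity), mul_pow, Real.sq_sqrt hCpos.le]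
          exact h2
        rw [div_le_div_iff₀ (Real.sqrt_pos.mpr hCpos) (Real.sqrt_pos.mpr hmp)]
        calc (quantile ν p - a) * Real.sqrt (mom2 μ)
            ≤ (quantile ν p - a) * (quantile μ p / (quantile ν p - a) * Real.sqrt C) :=
              mul_le_mul_of_nonneg_left h3 hya.le
          _ = quantile μ p * Real.sqrt C := by field_simp
    · intro b hb
      apply le_min
      · -- ratio tends to 1
        have hlim : Tendsto (fun δ : ℝ => 1 / Real.sqrt (1 - cdf ν (a + δ))) (𝓝[>] 0) (𝓝 1) := by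
          have h2 : Tendsto (fun δ : ℝ => Real.sqrt (1 - cdf ν (a + δ))) (𝓝[>] 0) (𝓝 1) := by
            have h3 : Continuous fun δ : ℝ => Real.sqrt (1 - cdf ν (a + δ)) := by
              have := cont h
              fun_prop
            have h4 := (h3.tendsto 0).mono_left (nhdsWithin_le_nhds (s := Ioi 0))
            simp only [add_zero, h.zero, sub_zero, Real.sqrt_one] at h4
            exact h4
          have := h2.inv₀ one_ne_zero
          simpa [one_div] using this
        apply ge_of_tendsto hlim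
        filter_upwards [Ioo_mem_nhdsGT hya] with δ hδ
        obtain ⟨k1, k2, k3⟩ := psi_one h (c := a) le_rfl hδ.1 h0 h1 (by linarith [hδ.2])
        have h5 := hb ⟨psi ν a δ 1, minus_psi h hδ.1 one_pos, rfl⟩
        refine h5.trans ?_
        unfold ratio
        rw [k1]
        have h6 : 0 < 1 - cdf ν (a + δ) := by
          have h7 : cdf ν (a + δ) ≤ cdf ν (quantile ν p) := monotone_cdf ν (by linarith [hδ.2])
          rw [hy] at h7
          linarith
        apply one_div_le_one_div_of_le (Real.sqrt_pos.mpr h6)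
        exact Real.sqrt_le_sqrt k3
      · have h2 := hb ⟨phi ν a, minus_phi h hi, rfl⟩
        refine h2.trans (le_of_eq ?_)
        unfold ratio
        rw [quantile_phi h h0 h1, max_eq_left hya.le, mom2_phi]
        congr 2
        unfold A
        apply integral_congr_ae
        filter_upwards [base_ae h] with y hy
        rw [max_eq_left (by linarith)]
  · constructor
    · rintro r ⟨μ, hμ, rfl⟩
      exact ratio_nonneg hμ.toAdm h0 h1
    · intro b hb
      -- second moments of the truncations are unbounded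
      by_contra hcon
      push Not at hcon
      have hbound : ∀ n : ℕ, 0 < n → quantile ν p - a ≤ n →
          ∫ y, (min (max (y - a) 0 / 1) (n:ℝ)) ^ 2 ∂ν ≤ ((quantile ν p - a) / b) ^ 2 := by
        intro n hn hn2
        have hn' : (0:ℝ) < n := by exact_mod_cast hn
        have h2 := hb ⟨psi ν a 1 n, minus_psi h one_pos hn', rfl⟩
        have hpos := (minus_psi h (δ := 1) (K := (n:ℝ)) one_pos hn').toAdm.pos
        unfold ratio at h2
        rw [quantile_psi h one_pos hn' h0 h1, max_eq_left hya.le, div_one, min_eq_left hn2,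
          le_div_iff₀ (Real.sqrt_pos.mpr hpos)] at h2
        rw [← mom2_psi]
        have h3 : Real.sqrt (mom2 (psi ν a 1 n)) ≤ (quantile ν p - a) / b := by
          rw [le_div_iff₀ hcon]; linarith
        calc mom2 (psi ν a 1 n) = Real.sqrt (mom2 (psi ν a 1 n)) ^ 2 := (Real.sq_sqrt hpos.le).symm
          _ ≤ _ := pow_le_pow_left₀ (Real.sqrt_nonneg _) h3 2
      apply hi
      -- Fatou
      set C := ((quantile ν p - a) / b) ^ 2 with hC
      obtain ⟨N, hN⟩ := exists_nat_ge (max (quantile ν p - a) 1)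
      have hfat : ∫⁻ y, ENNReal.ofReal ((max (y - a) 0) ^ 2) ∂ν ≤ ENNReal.ofReal C := by
        have hlim : ∀ y : ℝ, liminf (fun n : ℕ => ENNReal.ofReal
            ((min (max (y - a) 0 / 1) ((n + N : ℕ):ℝ)) ^ 2)) atTop =
            ENNReal.ofReal ((max (y - a) 0) ^ 2) := by
          intro y
          apply Tendsto.liminf_eq
          apply tendsto_const_nhds.congr'
          obtain ⟨M, hM⟩ := exists_nat_ge (max (y - a) 0)
          filter_upwards [eventually_ge_atTop M] with n hn
          rw [div_one, min_eq_left]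
          refine hM.trans ?_
          exact_mod_cast (by omega : M ≤ n + N)
        calc ∫⁻ y, ENNReal.ofReal ((max (y - a) 0) ^ 2) ∂ν
            = ∫⁻ y, liminf (fun n : ℕ => ENNReal.ofReal
              ((min (max (y - a) 0 / 1) ((n + N : ℕ):ℝ)) ^ 2)) atTop ∂ν := by
              simp only [hlim]
          _ ≤ liminf (fun n : ℕ => ∫⁻ y, ENNReal.ofReal
              ((min (max (y - a) 0 / 1) ((n + N : ℕ):ℝ)) ^ 2) ∂ν) atTop :=
              lintegral_liminf_le (fun n => by fun_prop)
          _ ≤ ENNReal.ofReal C := by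
              apply liminf_le_of_frequently_le'
              apply Eventually.frequently
              filter_upwards [eventually_ge_atTop 0] with n _
              have hNn : ((N:ℕ):ℝ) ≤ ((n + N : ℕ):ℝ) := by exact_mod_cast (by omega : N ≤ n + N)
              have hpos : 0 < n + N := by
                have h3 : (1:ℝ) ≤ N := (le_max_right _ _).trans hN
                have : 1 ≤ N := by exact_mod_cast h3
                omega
              have hpos' : (0:ℝ) < ((n + N : ℕ):ℝ) := by exact_mod_cast hpos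
              have h2 := hbound (n + N) hpos (((le_max_left _ _).trans hN).trans hNn)
              rw [← ofReal_integral_eq_lintegral_ofReal (int_psi h one_pos hpos')
                (Eventually.of_forall fun y => sq_nonneg _)]
              exact ENNReal.ofReal_le_ofReal h2
      have hint : Integrable (fun y => (max (y - a) 0) ^ 2) ν := by
        refine ⟨by fun_prop, ?_⟩
        rw [hasFiniteIntegral_iff_ofReal (Eventually.of_forall fun x => sq_nonneg _)]
        exact hfat.trans_lt ENNReal.ofReal_lt_top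
      have h3 : Integrable (fun y => 2 * (max (y - a) 0) ^ 2 + 2 * a ^ 2) ν :=
        (hint.const_mul 2).add (integrable_const _)
      refine h3.mono' (by fun_prop) ?_
      filter_upwards [base_ae h] with y hy
      rw [Real.norm_eq_abs, abs_of_nonneg (sq_nonneg _), max_eq_left (by linarith)]
      nlinarith [sq_nonneg (y - 2 * a)]

lemma lub_atom {ν : Measure ℝ} {a : ℝ} (h : Base ν a) {p : ℝ} (h0 : 0 < p) (h1 : p < 1) :
    IsLUB {r | ∃ μ, MinusAtom ν a μ ∧ r = ratio μ p} (1 / Real.sqrt (1 - p)) := by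
  have := h.prob
  obtain ⟨hy, hay, hyp⟩ := yp_spec h h0 h1
  constructor
  · rintro r ⟨μ, hμ, rfl⟩
    exact ratio_markov hμ.toAdm h0 h1
  · intro b hb
    have hlim : Tendsto (fun c : ℝ => 1 / Real.sqrt (1 - cdf ν c)) (𝓝[<] (quantile ν p))
        (𝓝 (1 / Real.sqrt (1 - p))) := by
      have h2 : Tendsto (fun c : ℝ => Real.sqrt (1 - cdf ν c)) (𝓝[<] (quantile ν p))
          (𝓝 (Real.sqrt (1 - p))) := by
        have h3 : Continuous fun c : ℝ => Real.sqrt (1 - cdf ν c) := by
          have := cont h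
          fun_prop
        have h4 := (h3.tendsto (quantile ν p)).mono_left
          (nhdsWithin_le_nhds (s := Iio (quantile ν p)))
        rw [hy] at h4
        exact h4
      have := h2.inv₀ (Real.sqrt_pos.mpr (by linarith)).ne'
      simpa [one_div] using this
    apply le_of_tendsto hlim
    filter_upwards [Ioo_mem_nhdsLT hay] with c hc
    obtain ⟨k1, k2, _⟩ := psi_one h (c := c) (δ := quantile ν p - c) hc.1.le (by linarith [hc.2])
      h0 h1 (by linarith)
    have hc1 : cdf ν c < 1 := by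
      have := monotone_cdf ν hc.2.le
      rw [hy] at this
      linarith
    have hadm := minusAtom_psi h (c := c) (δ := quantile ν p - c) (K := 1) (by linarith [hc.2])
      one_pos hc.1.le hc1
    have h5 := hb ⟨_, hadm, rfl⟩
    refine le_trans ?_ h5
    unfold ratio
    rw [k1]
    apply one_div_le_one_div_of_le (Real.sqrt_pos.mpr hadm.pos)
    exact Real.sqrt_le_sqrt k2

lemma glb_atom {ν : Measure ℝ} {a : ℝ} (h : Base ν a) {p : ℝ} (h0 : 0 < p) (h1 : p < 1) :
    IsGLB {r | ∃ μ, MinusAtom ν a μ ∧ r = ratio μ p} 0 := by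
  obtain ⟨hy, hay, hyp⟩ := yp_spec h h0 h1
  constructor
  · rintro r ⟨μ, hμ, rfl⟩
    exact ratio_nonneg hμ.toAdm h0 h1
  · intro b hb
    apply hb
    refine ⟨psi ν (quantile ν p) 1 1, minusAtom_psi h one_pos one_pos hay.le
      (by rw [hy]; exact h1), ?_⟩
    unfold ratio
    rw [quantile_psi h one_pos one_pos h0 h1]
    simp

/-- The sharp bounds on `F⁻¹(p) / m_F` over the two classes. -/
theorem result (ν : Measure ℝ) (a : ℝ) (h : Base ν a) (p : ℝ) (h0 : 0 < p) (h1 : p < 1) :
    (Integrable (fun y => y ^ 2) ν →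
      IsLUB {r | ∃ μ, Plus ν a μ ∧ r = ratio μ p} (supPlus ν a p) ∧
      IsGLB {r | ∃ μ, Plus ν a μ ∧ r = ratio μ p} 0) ∧
    (¬ Integrable (fun y => y ^ 2) ν → ∀ μ, ¬ Plus ν a μ) ∧
    IsLUB {r | ∃ μ, Minus ν a μ ∧ r = ratio μ p} (supMinus ν a p) ∧
    IsGLB {r | ∃ μ, Minus ν a μ ∧ r = ratio μ p} (infMinus ν a p) ∧
    IsLUB {r | ∃ μ, MinusAtom ν a μ ∧ r = ratio μ p} (1 / Real.sqrt (1 - p)) ∧
    IsGLB {r | ∃ μ, MinusAtom ν a μ ∧ r = ratio μ p} 0 :=
  ⟨fun hi => ⟨lub_plus h hi h0 h1, glb_plus h hi h0 h1⟩, fun hi μ => empty_plus h hi μ,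
    lub_minus h h0 h1, glb_minus h h0 h1, lub_atom h h0 h1, glb_atom h h0 h1⟩

end Pool.Agent.Results.MP_4978a0_pr.SharpQuantileBounds
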